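import Mathlib

/-! Formal infinite products and sums of power series, and the Jacobi triple product. -/

namespace Pool.Agent.MP_54ec50_nt

open PowerSeries Finset

variable {A : Type*} [CommRing A] {B : Type*} [CommRing B]

/-- congruence modulo `X ^ M` -/
def Cg (M : ℕ) (a b : A⟦X⟧) : Prop := (X : A⟦X⟧) ^ M ∣ a - b

namespace Cg
variable {M : ℕ} {a b c d : A⟦X⟧}
lemma refl (a : A⟦X⟧) : Cg M a a := by simp [Cg]
lemma of_eq (h : a = b) : Cg M a b := h ▸ refl a
lemma symm (h : Cg M a b) : Cg M b a := by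
  unfold Cg at *; rw [← neg_sub]; exact h.neg_right
lemma trans (h : Cg M a b) (h' : Cg M b c) : Cg M a c := by
  unfold Cg at *; have := h.add h'; rwa [sub_add_sub_cancel] at this
lemma add (h : Cg M a b) (h' : Cg M c d) : Cg M (a + c) (b + d) := by
  unfold Cg at *; have := h.add h'; rwa [show a - b + (c - d) = a + c - (b + d) by ring] at this
lemma mul (h : Cg M a b) (h' : Cg M c d) : Cg M (a * c) (b * d) := by
  unfold Cg at *
  have := (h.mul_right c).add (h'.mul_left b)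
  rwa [show (a - b) * c + b * (c - d) = a * c - b * d by ring] at this
lemma mono {M' : ℕ} (h : Cg M' a b) (hM : M ≤ M') : Cg M a b := (pow_dvd_pow _ hM).trans h
lemma prod {ι : Type*} (s : Finset ι) {f g : ι → A⟦X⟧} (h : ∀ i ∈ s, Cg M (f i) (g i)) :
    Cg M (∏ i ∈ s, f i) (∏ i ∈ s, g i) := by
  classical
  induction s using Finset.induction_on with
  | empty => simpa using refl _
  | insert i s hi ih =>
    rw [prod_insert hi, prod_insert hi]
    exact (h i (by simp)).mul (ih fun j hj => h j (by simp [hj]))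
lemma sum {ι : Type*} (s : Finset ι) {f g : ι → A⟦X⟧} (h : ∀ i ∈ s, Cg M (f i) (g i)) :
    Cg M (∑ i ∈ s, f i) (∑ i ∈ s, g i) := by
  unfold Cg at *; rw [← sum_sub_distrib]; exact dvd_sum h
lemma iff_coeff : Cg M a b ↔ ∀ n < M, coeff n a = coeff n b := by
  simp [Cg, X_pow_dvd_iff, sub_eq_zero]
lemma map (φ : A⟦X⟧ →+* B⟦X⟧) (hφ : X ∣ φ X) (h : Cg M a b) : Cg M (φ a) (φ b) := by
  obtain ⟨y, hy⟩ := h
  unfold Cg
  rw [← map_sub, hy, map_mul, map_pow]
  exact (pow_dvd_pow_of_dvd hφ M).mul_right _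
end Cg

lemma eq_of_cg {a b : A⟦X⟧} (h : ∀ M, Cg M a b) : a = b := by
  ext n; exact Cg.iff_coeff.mp (h (n + 1)) n (by omega)

noncomputable def IP (f : ℕ → A⟦X⟧) : A⟦X⟧ := mk fun n => coeff n (∏ k ∈ range (n + 1), f k)
def AdP (f : ℕ → A⟦X⟧) : Prop := ∀ k, Cg k (f k) 1

variable {f g : ℕ → A⟦X⟧}

lemma AdP.range_cg (h : AdP f) {M M' : ℕ} (hM : M ≤ M') :
    Cg M (∏ k ∈ range M', f k) (∏ k ∈ range M, f k) := by
  induction M', hM using Nat.le_induction with
  | base => exact Cg.refl _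
  | succ n hn ih =>
    rw [prod_range_succ]
    simpa using ih.mul ((h n).mono hn)

lemma AdP.cg (h : AdP f) {M M' : ℕ} (hM : M ≤ M') : Cg M (IP f) (∏ k ∈ range M', f k) := by
  rw [Cg.iff_coeff]
  intro n hn
  rw [IP, coeff_mk]
  exact (Cg.iff_coeff.mp (h.range_cg (show n + 1 ≤ M' by omega)) n (by omega)).symm

lemma AdP.mul (h : AdP f) (h' : AdP g) : AdP fun k => f k * g k := fun k => by
  simpa using (h k).mul (h' k)

lemma IP_mul (h : AdP f) (h' : AdP g) : IP (fun k => f k * g k) = IP f * IP g :=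
  eq_of_cg fun M => by
    refine ((h.mul h').cg le_rfl).trans ?_
    rw [prod_mul_distrib]
    exact ((h.cg le_rfl).mul (h'.cg le_rfl)).symm

lemma AdP.map (h : AdP f) (φ : A⟦X⟧ →+* B⟦X⟧) (hφ : X ∣ φ X) : AdP fun k => φ (f k) :=
  fun k => by simpa using (h k).map φ hφ

lemma IP_map (h : AdP f) (φ : A⟦X⟧ →+* B⟦X⟧) (hφ : X ∣ φ X) :
    φ (IP f) = IP fun k => φ (f k) :=
  eq_of_cg fun M => by
    refine ((h.cg le_rfl).map φ hφ).trans ?_
    rw [map_prod]
    exact ((h.map φ hφ).cg le_rfl).symm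

lemma prod_range_mul' (m M : ℕ) (f : ℕ → A⟦X⟧) :
    ∏ k ∈ range (m * M), f k = ∏ k ∈ range M, ∏ r ∈ range m, f (m * k + r) := by
  induction M with
  | zero => simp
  | succ M ih => rw [Nat.mul_succ, prod_range_add, ih, prod_range_succ]

lemma AdP.sub (h : AdP f) {m : ℕ} (hm : 0 < m) (r : ℕ) : AdP fun k => f (m * k + r) :=
  fun k => (h _).mono (by nlinarith)

lemma IP_group (h : AdP f) {m : ℕ} (hm : 0 < m) :
    IP f = ∏ r ∈ range m, IP fun k => f (m * k + r) :=
  eq_of_cg fun M => by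
    refine (h.cg (show M ≤ m * M by nlinarith)).trans ?_
    rw [prod_range_mul', prod_comm]
    exact Cg.prod _ fun r _ => ((h.sub hm r).cg le_rfl).symm

lemma isUnit_of_cg {a : A⟦X⟧} (h : Cg 1 a 1) : IsUnit a := by
  rw [isUnit_iff_constantCoeff]
  have := Cg.iff_coeff.mp h 0 (by omega)
  simp only [coeff_zero_eq_constantCoeff, map_one] at this
  rw [this]; exact isUnit_one

section Triple
variable (p : A⟦X⟧)

noncomputable def fac (m : ℕ) : A⟦X⟧ := ∏ i ∈ range m, (1 - p ^ (i + 1))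
noncomputable def ifac (m : ℕ) : A⟦X⟧ := Ring.inverse (fac p m)
noncomputable def gauss (N s : ℕ) : A⟦X⟧ := if s ≤ N then fac p N * ifac p s * ifac p (N - s) else 0

variable {p} (hp : X ∣ p)
include hp

lemma adP_fac : AdP fun i => 1 - p ^ (i + 1) := fun i => by
  unfold Cg
  rw [sub_sub_cancel_left]
  exact ((pow_dvd_pow _ (by omega)).trans (pow_dvd_pow_of_dvd hp (i + 1))).neg_right

lemma fac_unit (m : ℕ) : IsUnit (fac p m) := by
  apply isUnit_of_cg
  have := Cg.prod (M := 1) (range m) (f := fun i => 1 - p ^ (i + 1)) (g := fun _ => 1) (fun i _ => by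
    unfold Cg
    rw [sub_sub_cancel_left, pow_one]
    exact (hp.trans (dvd_pow_self p (by omega))).neg_right)
  simpa [fac] using this

lemma fac_ifac (m : ℕ) : fac p m * ifac p m = 1 := Ring.mul_inverse_cancel _ (fac_unit hp m)

lemma ifac_succ (m : ℕ) : ifac p m = ifac p (m + 1) * (1 - p ^ (m + 1)) := by
  have h1 := fac_ifac hp m
  have h2 := fac_ifac hp (m + 1)
  rw [fac, prod_range_succ, ← fac] at h2
  linear_combination (-(ifac p m)) * h2 + ifac p (m + 1) * (1 - p ^ (m + 1)) * h1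

lemma gauss_zero (N : ℕ) : gauss p N 0 = 1 := by
  have h0 := fac_ifac hp 0
  have h1 := fac_ifac hp N
  simp only [fac, range_zero, prod_empty, one_mul] at h0
  simp [gauss, h0, h1]

lemma gauss_self (N : ℕ) : gauss p N N = 1 := by
  have h0 := fac_ifac hp 0
  have h1 := fac_ifac hp N
  simp only [fac, range_zero, prod_empty, one_mul] at h0
  simp [gauss, h0, h1]

lemma pascal (N s : ℕ) (hs : s ≤ N) :
    gauss p (N + 1) (s + 1) = gauss p N (s + 1) + p ^ (N - s) * gauss p N s ∧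
    gauss p (N + 1) (s + 1) = gauss p N s + p ^ (s + 1) * gauss p N (s + 1) := by
  rcases hs.lt_or_eq with h | rfl
  · obtain ⟨t, rfl⟩ : ∃ t, N = s + t + 1 := ⟨N - s - 1, by omega⟩
    simp only [gauss, if_pos (show s + 1 ≤ s + t + 1 + 1 by omega),
      if_pos (show s + 1 ≤ s + t + 1 by omega), if_pos (show s ≤ s + t + 1 by omega),
      show s + t + 1 + 1 - (s + 1) = t + 1 by omega, show s + t + 1 - (s + 1) = t by omega,
      show s + t + 1 - s = t + 1 by omega]
    rw [ifac_succ hp s, ifac_succ hp t, fac, prod_range_succ, ← fac]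
    constructor <;> ring
  · rw [gauss_self hp, gauss_self hp]
    simp [gauss]

end Triple

def tz (j : ℤ) : ℕ := (j * (j + 1) / 2).toNat

lemma two_tz (j : ℤ) : 2 * (tz j : ℤ) = j * (j + 1) := by
  have h1 : 0 ≤ j * (j + 1) := by rcases le_or_gt 0 j with h | h <;> nlinarith
  have h2 : 2 ∣ j * (j + 1) := (Int.even_mul_succ_self j).two_dvd
  unfold tz
  omega

lemma tz_succ (j : ℤ) : (tz (j + 1) : ℤ) = tz j + j + 1 := by
  have h1 := two_tz j
  have h2 := two_tz (j + 1)
  nlinarith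

lemma tz_ge (j : ℤ) : j ≤ tz j ∧ -j - 1 ≤ tz j := by
  have h1 := two_tz j
  constructor
  · rcases le_or_gt j 0 with h | h <;> nlinarith
  · rcases le_or_gt j (-2) with h | h <;> nlinarith

noncomputable def TT (a b : A⟦X⟧) (j : ℤ) : A⟦X⟧ := a ^ tz j * b ^ tz (-j)

lemma TT_a (a b : A⟦X⟧) (m n s : ℕ) (hs : s ≤ m + n) :
    a * (a * b) ^ m * TT a b (s - n) = (a * b) ^ (m + n - s) * TT a b (s + 1 - n) := by
  have h1 := tz_succ ((s : ℤ) - n)
  have h2 := tz_succ (-((s : ℤ) + 1 - n))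
  rw [show (s : ℤ) - n + 1 = s + 1 - n by ring] at h1
  rw [show -((s : ℤ) + 1 - n) + 1 = -(s - n) by ring] at h2
  have e1 : 1 + m + tz (s - n) = m + n - s + tz (s + 1 - n) := by omega
  have e2 : m + tz (-(s - n)) = m + n - s + tz (-(s + 1 - n)) := by omega
  calc _ = a ^ (1 + m + tz (s - n)) * b ^ (m + tz (-(s - n))) := by unfold TT; ring
    _ = _ := by rw [e1, e2]; unfold TT; ring

lemma TT_b (a b : A⟦X⟧) (n s : ℕ) :
    b * (a * b) ^ n * TT a b (s - n) = (a * b) ^ s * TT a b (s - (n + 1 : ℕ)) := by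
  have h1 := tz_succ ((s : ℤ) - (n + 1 : ℕ))
  have h2 := tz_succ (-((s : ℤ) - n))
  rw [show (s : ℤ) - (n + 1 : ℕ) + 1 = s - n by push_cast; ring] at h1
  rw [show -((s : ℤ) - n) + 1 = -(s - (n + 1 : ℕ)) by push_cast; ring] at h2
  have e1 : n + tz (s - n) = s + tz (s - (n + 1 : ℕ)) := by omega
  have e2 : 1 + n + tz (-(s - n)) = s + tz (-(s - (n + 1 : ℕ))) := by omega
  calc _ = a ^ (n + tz (s - n)) * b ^ (1 + n + tz (-(s - n))) := by unfold TT; ring
    _ = _ := by rw [e1, e2]; unfold TT; ring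

lemma finite_jtp {a b : A⟦X⟧} (hp : X ∣ a * b) (m n : ℕ) :
    (∏ k ∈ range m, (1 + a * (a * b) ^ k)) * ∏ k ∈ range n, (1 + b * (a * b) ^ k) =
      ∑ s ∈ range (m + n + 1), gauss (a * b) (m + n) s * TT a b (s - n) := by
  have top : ∀ N, gauss (a * b) N (N + 1) = 0 := fun N => by simp [gauss]
  induction m with
  | zero =>
    simp only [range_zero, prod_empty, one_mul, zero_add]
    induction n with
    | zero => simp [gauss_zero hp, TT, tz]
    | succ n ih =>
      rw [prod_range_succ, ih, mul_add, mul_one, sum_mul, sum_range_succ' _ (n + 1)]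
      have e1 : ∀ s ∈ range (n + 1), gauss (a * b) (n + 1) (s + 1) *
          TT a b ((s + 1 : ℕ) - (n + 1 : ℕ)) = gauss (a * b) n s * TT a b (s - n) +
            (a * b) ^ (s + 1) * gauss (a * b) n (s + 1) * TT a b ((s + 1 : ℕ) - (n + 1 : ℕ)) := by
        intro s hs
        rw [(pascal hp n s (by simp at hs; omega)).2, add_mul]
        congr 3
        push_cast; ring
      rw [sum_congr rfl e1, sum_add_distrib, add_assoc]
      congr 1
      have e2 : ∀ s ∈ range (n + 1), gauss (a * b) n s * TT a b (s - n) * (b * (a * b) ^ n) =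
          (a * b) ^ s * gauss (a * b) n s * TT a b (s - (n + 1 : ℕ)) := by
        intro s _
        linear_combination gauss (a * b) n s * TT_b a b n s
      rw [sum_congr rfl e2, sum_range_succ' _ n, sum_range_succ _ n, top, gauss_zero hp,
        gauss_zero hp]
      simp
  | succ m ih =>
    rw [prod_range_succ, mul_right_comm, ih, mul_add, mul_one, sum_mul,
      show m + 1 + n = m + n + 1 by ring, sum_range_succ' _ (m + n + 1)]
    have e1 : ∀ s ∈ range (m + n + 1), gauss (a * b) (m + n + 1) (s + 1) *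
        TT a b ((s + 1 : ℕ) - n) = gauss (a * b) (m + n) (s + 1) * TT a b ((s + 1 : ℕ) - n) +
          gauss (a * b) (m + n) s * TT a b (s - n) * (a * (a * b) ^ m) := by
      intro s hs
      have hs' : s ≤ m + n := by simp at hs; omega
      rw [(pascal hp (m + n) s hs').1]
      push_cast
      linear_combination (-gauss (a * b) (m + n) s) * TT_a a b m n s hs'
    have e2 : ∑ s ∈ range (m + n + 1), gauss (a * b) (m + n) s * TT a b (s - n) =
        ∑ s ∈ range (m + n + 1), gauss (a * b) (m + n) (s + 1) * TT a b ((s + 1 : ℕ) - n) +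
          gauss (a * b) (m + n + 1) 0 * TT a b ((0 : ℕ) - n) := by
      rw [sum_range_succ' _ (m + n), sum_range_succ _ (m + n), top, gauss_zero hp, gauss_zero hp]
      simp
    rw [sum_congr rfl e1, sum_add_distrib, e2]
    ring

lemma TT_dvd {a : A⟦X⟧} (b : A⟦X⟧) (ha : X ∣ a) (j : ℤ) : X ^ tz j ∣ TT a b j :=
  (pow_dvd_pow_of_dvd ha _).mul_right _

lemma adP_one_add {p : A⟦X⟧} (hp : X ∣ p) (c : A⟦X⟧) : AdP fun k => 1 + c * p ^ k := by
  intro k
  unfold Cg
  rw [add_sub_cancel_left]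
  exact (pow_dvd_pow_of_dvd hp k).mul_left _

/-- `a` is the sum of the family `f` in the `X`-adic sense -/
def HS {ι : Type*} (f : ι → A⟦X⟧) (a : A⟦X⟧) : Prop :=
  ∀ M, ∃ s : Finset ι, (∀ i ∉ s, Cg M (f i) 0) ∧ Cg M (∑ i ∈ s, f i) a

namespace HS
variable {ι κ : Type*} {f : ι → A⟦X⟧} {g : κ → A⟦X⟧} {a b : A⟦X⟧}

lemma sup {M : ℕ} {s t : Finset ι} (h : ∀ i ∉ s, Cg M (f i) 0) (hst : s ⊆ t) :
    Cg M (∑ i ∈ t, f i) (∑ i ∈ s, f i) := by
  classical
  rw [← sum_sdiff hst]
  have : Cg M (∑ i ∈ t \ s, f i) (∑ i ∈ t \ s, 0) :=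
    Cg.sum _ fun i hi => h i (by simp at hi; exact hi.2)
  simpa using this.add (Cg.refl (∑ i ∈ s, f i))

lemma unique (h : HS f a) (h' : HS f b) : a = b := eq_of_cg fun M => by
  classical
  obtain ⟨s, h1, h2⟩ := h M
  obtain ⟨t, h3, h4⟩ := h' M
  exact (h2.symm.trans (sup h1 subset_union_left).symm).trans
    ((sup h3 subset_union_right).trans h4)

lemma mul (h : HS f a) (h' : HS g b) : HS (fun p : ι × κ => f p.1 * g p.2) (a * b) := by
  intro M
  obtain ⟨s, h1, h2⟩ := h M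
  obtain ⟨t, h3, h4⟩ := h' M
  refine ⟨s ×ˢ t, fun p hp => ?_, ?_⟩
  · rw [mem_product, not_and_or] at hp
    rcases hp with hp | hp
    · simpa using (h1 _ hp).mul (Cg.refl (g p.2))
    · simpa using (Cg.refl (f p.1)).mul (h3 _ hp)
  · rw [sum_product' s t (fun i j => f i * g j), ← sum_mul_sum]
    exact h2.mul h4

lemma const_mul (h : HS f a) (c : A⟦X⟧) : HS (fun i => c * f i) (c * a) := by
  intro M
  obtain ⟨s, h1, h2⟩ := h M
  refine ⟨s, fun i hi => by simpa using (Cg.refl c).mul (h1 i hi), ?_⟩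
  rw [← mul_sum]
  exact (Cg.refl c).mul h2

lemma sum (h : HS f a) (h' : HS g b) : HS (Sum.elim f g) (a + b) := by
  intro M
  obtain ⟨s, h1, h2⟩ := h M
  obtain ⟨t, h3, h4⟩ := h' M
  refine ⟨s.disjSum t, ?_, ?_⟩
  · rintro (i | i) hi
    · exact h1 i (by simpa using hi)
    · exact h3 i (by simpa using hi)
  · rw [sum_disjSum]
    exact h2.add h4

lemma equiv (e : ι ≃ κ) (hfg : ∀ i, f i = g (e i)) (h : HS f a) : HS g a := by
  intro M
  obtain ⟨s, h1, h2⟩ := h M
  refine ⟨s.map e.toEmbedding, fun k hk => ?_, ?_⟩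
  · have := h1 (e.symm k) (by simpa using hk)
    rwa [hfg, e.apply_symm_apply] at this
  · rw [sum_map]
    simpa [hfg] using h2

end HS

noncomputable def Theta (a b : A⟦X⟧) : A⟦X⟧ :=
  IP (fun k => 1 + a * (a * b) ^ k) * IP (fun k => 1 + b * (a * b) ^ k) *
      IP (fun k => 1 - (a * b) ^ (k + 1))

/-- Jacobi's triple product identity in Ramanujan's form -/
theorem jtp {a : A⟦X⟧} (b : A⟦X⟧) (ha : X ∣ a) : HS (TT a b) (Theta a b) := by
  have hp : X ∣ a * b := ha.mul_right b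
  intro M
  obtain ⟨n, hn⟩ : ∃ n, n = M + 1 := ⟨_, rfl⟩
  have hMn : M ≤ n := by omega
  refine ⟨(range (n + n + 1)).map ⟨fun s : ℕ => (s : ℤ) - n, fun s t h => by simpa using h⟩,
    fun j hj => ?_, ?_⟩
  · have h1 := tz_ge j
    have h2 : j < -n ∨ n < j := by
      by_contra hc
      apply hj
      simp only [mem_map, mem_range, Function.Embedding.coeFn_mk]
      exact ⟨(j + n).toNat, by omega, by omega⟩
    unfold Cg
    rw [sub_zero]
    exact (pow_dvd_pow _ (by omega)).trans (TT_dvd b ha j)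
  apply Cg.symm
  refine ((((adP_one_add hp a).cg hMn).mul ((adP_one_add hp b).cg hMn)).mul
    ((adP_fac hp).cg hMn)).trans ?_
  rw [finite_jtp hp, sum_mul, sum_map]
  refine Cg.sum _ fun s hs => ?_
  have hs' : s ≤ n + n := by simp at hs; omega
  set μ := min (min s (n + n - s)) n with hμ
  have c1 : Cg μ (fac (a * b) (n + n)) (fac (a * b) s) :=
    ((adP_fac hp).range_cg (by omega)).trans ((adP_fac hp).range_cg (by omega)).symm
  have c2 : Cg μ (fac (a * b) n) (fac (a * b) (n + n - s)) :=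
    ((adP_fac hp).range_cg (by omega)).trans ((adP_fac hp).range_cg (by omega)).symm
  have c3 : Cg μ (gauss (a * b) (n + n) s * fac (a * b) n) 1 := by
    rw [gauss, if_pos hs']
    refine (((c1.mul (Cg.refl _)).mul (Cg.refl _)).mul c2).trans (Cg.of_eq ?_)
    rw [fac_ifac hp, one_mul, mul_comm, fac_ifac hp]
  have c4 := mul_dvd_mul c3 (TT_dvd b ha ((s : ℤ) - n))
  rw [← pow_add] at c4
  have h1 := tz_ge ((s : ℤ) - n)
  refine (pow_dvd_pow _ (by omega)).trans (c4.trans (dvd_of_eq ?_))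
  simp only [Function.Embedding.coeFn_mk, fac]
  ring

end Pool.Agent.MP_54ec50_nt
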