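import Pool.Agent.MP_54ec50_nt.JTP

/-! The modular equation of degree two for the Rogers-Ramanujan continued fraction. -/

namespace Pool.Agent.MP_54ec50_nt

open PowerSeries Finset

noncomputable def th (s t : ℕ) : ℤ⟦X⟧ := Theta (-X ^ s) (-X ^ t)
noncomputable def ee (s t : ℕ) : ℤ⟦X⟧ := Theta (X ^ s) (X ^ t)

lemma TT_pos (s t : ℕ) (j : ℤ) :
    TT (X ^ s : ℤ⟦X⟧) (X ^ t) j = X ^ (s * tz j + t * tz (-j)) := by
  unfold TT; ring

lemma TT_neg (s t : ℕ) (j : ℤ) :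
    TT (-X ^ s : ℤ⟦X⟧) (-X ^ t) j = (-1) ^ (tz j + tz (-j)) * X ^ (s * tz j + t * tz (-j)) := by
  unfold TT; rw [neg_pow, neg_pow (X ^ t)]; ring

noncomputable def eqv : (ℤ × ℤ) ⊕ (ℤ × ℤ) ≃ ℤ × ℤ :=
  Equiv.ofBijective
    (Sum.elim (fun p => (-p.1 - p.2, -p.1 + p.2)) (fun p => (p.1 + p.2 + 1, p.1 - p.2))) (by
    constructor
    · rintro (⟨a, b⟩ | ⟨a, b⟩) (⟨c, d⟩ | ⟨c, d⟩) h <;>
        simp only [Sum.elim_inl, Sum.elim_inr, Prod.mk.injEq, Sum.inl.injEq, Sum.inr.injEq,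
          reduceCtorEq] at h ⊢ <;> omega
    · rintro ⟨m, n⟩
      rcases Int.emod_two_eq_zero_or_one (m + n) with h | h
      · exact ⟨Sum.inl (-(m + n) / 2, (n - m) / 2), by
          simp only [Sum.elim_inl, Prod.mk.injEq]; omega⟩
      · exact ⟨Sum.inr ((m + n - 1) / 2, (m - n - 1) / 2), by
          simp only [Sum.elim_inr, Prod.mk.injEq]; omega⟩)

lemma hs_ee (s t : ℕ) (hs : 0 < s) : HS (TT (X ^ s) (X ^ t)) (ee s t) :=
  jtp _ (dvd_pow_self _ hs.ne')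

lemma hs_th (s t : ℕ) (hs : 0 < s) : HS (TT (-X ^ s) (-X ^ t)) (th s t) :=
  jtp _ (dvd_pow_self _ hs.ne').neg_right

lemma th_mul (s d r : ℕ) (hs : 0 < s) :
    th s (s + d + r) * th (s + d) (s + r) =
      ee (2 * s + d + 2 * r) (2 * s + d) * ee (2 * s + 2 * d + r) (2 * s + r) +
        (-X ^ s) * (ee (4 * s + 2 * d + r) r * ee (4 * s + d + 2 * r) d) := by
  refine HS.unique ((hs_th _ _ hs).mul (hs_th _ _ (by omega))) ?_
  refine HS.equiv eqv ?_ (((hs_ee _ _ (by omega)).mul (hs_ee _ _ (by omega))).sum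
    (((hs_ee _ _ (by omega)).mul (hs_ee _ _ (by omega))).const_mul _))
  rintro (⟨k, l⟩ | ⟨k, l⟩)
  · simp only [eqv, Equiv.ofBijective_apply, Sum.elim_inl, TT_pos, TT_neg]
    have h1 := two_tz k
    have h2 := two_tz (-k)
    have h3 := two_tz l
    have h4 := two_tz (-l)
    have h5 := two_tz (-k - l)
    have h6 := two_tz (-(-k - l))
    have h7 := two_tz (-k + l)
    have h8 := two_tz (-(-k + l))
    have e1 : tz (-k - l) + tz (-(-k - l)) + (tz (-k + l) + tz (-(-k + l))) =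
        2 * (tz k + tz (-k) + tz l + tz (-l)) := by
      zify; linarith
    have e2 : s * tz (-k - l) + (s + d + r) * tz (-(-k - l)) +
        ((s + d) * tz (-k + l) + (s + r) * tz (-(-k + l))) =
        (2 * s + d + 2 * r) * tz k + (2 * s + d) * tz (-k) +
          ((2 * s + 2 * d + r) * tz l + (2 * s + r) * tz (-l)) := by
      zify
      apply mul_left_cancel₀ (two_ne_zero (α := ℤ))
      linear_combination s * h5 + (s + d + r) * h6 + (s + d) * h7 + (s + r) * h8 -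
        (2 * s + d + 2 * r) * h1 - (2 * s + d) * h2 - (2 * s + 2 * d + r) * h3 - (2 * s + r) * h4
    rw [mul_mul_mul_comm, ← pow_add, ← pow_add, ← pow_add, e1, e2, pow_mul]
    simp
  · simp only [eqv, Equiv.ofBijective_apply, Sum.elim_inr, TT_pos, TT_neg]
    have h1 := two_tz k
    have h2 := two_tz (-k)
    have h3 := two_tz l
    have h4 := two_tz (-l)
    have h5 := two_tz (k + l + 1)
    have h6 := two_tz (-(k + l + 1))
    have h7 := two_tz (k - l)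
    have h8 := two_tz (-(k - l))
    have e1 : tz (k + l + 1) + tz (-(k + l + 1)) + (tz (k - l) + tz (-(k - l))) =
        2 * (2 * tz k + 2 * tz l) + 1 := by
      zify; linarith
    have e2 : s * tz (k + l + 1) + (s + d + r) * tz (-(k + l + 1)) +
        ((s + d) * tz (k - l) + (s + r) * tz (-(k - l))) =
        s + ((4 * s + 2 * d + r) * tz k + r * tz (-k) +
          ((4 * s + d + 2 * r) * tz l + d * tz (-l))) := by
      zify
      apply mul_left_cancel₀ (two_ne_zero (α := ℤ))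
      linear_combination s * h5 + (s + d + r) * h6 + (s + d) * h7 + (s + r) * h8 -
        (4 * s + 2 * d + r) * h1 - r * h2 - (4 * s + d + 2 * r) * h3 - d * h4
    rw [mul_mul_mul_comm, ← pow_add, ← pow_add, ← pow_add, e1, e2, pow_succ, pow_mul, pow_add X s]
    simp

/-- `(q^r; q^m)` -/
noncomputable def pk (m r : ℕ) : ℤ⟦X⟧ := IP fun k => 1 - X ^ (m * k + r)

lemma adP_pk {m : ℕ} (hm : 0 < m) (r : ℕ) : AdP fun k => (1 - X ^ (m * k + r) : ℤ⟦X⟧) := by
  intro k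
  unfold Cg
  rw [sub_sub_cancel_left]
  exact (pow_dvd_pow _ (by nlinarith)).neg_right

lemma pk_cg {m r : ℕ} (hm : 0 < m) (hr : 0 < r) : Cg 1 (pk m r) 1 := by
  refine ((adP_pk hm r).cg le_rfl).trans ?_
  unfold Cg
  simp only [range_one, prod_singleton, mul_zero, zero_add, sub_sub_cancel_left]
  exact (pow_dvd_pow _ hr).neg_right

lemma pk_unit {m r : ℕ} (hm : 0 < m) (hr : 0 < r) : IsUnit (pk m r) := isUnit_of_cg (pk_cg hm hr)

lemma th_eq (s t : ℕ) (h : s + t = 10) : th s t = pk 10 s * pk 10 t * pk 10 10 := by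
  unfold th Theta pk
  rw [neg_mul_neg, ← pow_add, h]
  congr 1
  · congr 1
    · congr 1; funext k; ring
    · congr 1; funext k; ring
  · congr 1; funext k; ring

lemma pk_split (r : ℕ) : pk 5 r = pk 10 r * pk 10 (5 + r) := by
  rw [pk, IP_group (adP_pk (by norm_num) r) (m := 2) (by norm_num), prod_range_succ,
    prod_range_one]
  unfold pk
  congr 1
  · congr 1; funext k; ring
  · congr 1; funext k; ring

/-- `q ↦ q^p` -/
noncomputable def E (p : ℕ) [NeZero p] : ℤ⟦X⟧ →+* ℤ⟦X⟧ := (expand p (NeZero.ne p)).toRingHom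

lemma E_X (p : ℕ) [NeZero p] : E p X = X ^ p := expand_X _ _

lemma coeff_E (p : ℕ) [NeZero p] (f : ℤ⟦X⟧) (n : ℕ) :
    coeff n (E p f) = if p ∣ n then coeff (n / p) f else 0 := coeff_expand _ _ _

lemma coeff_E_mul (p : ℕ) [NeZero p] (f : ℤ⟦X⟧) (n : ℕ) :
    coeff (p * n) (E p f) = coeff n f := coeff_expand_mul _ _ _ _

lemma X_dvd_E (p : ℕ) [NeZero p] : X ∣ E p X := by
  rw [E_X]; exact dvd_pow_self _ (NeZero.ne p)

lemma E_pk (r : ℕ) : E 2 (pk 5 r) = pk 10 (2 * r) := by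
  rw [pk, IP_map (adP_pk (by norm_num) r) _ (X_dvd_E 2)]
  unfold pk
  congr 1; funext k
  rw [map_sub, map_one, map_pow, E_X]; ring

/-- the Rogers-Ramanujan continued fraction without `q^(1/5)` -/
noncomputable def RR : ℤ⟦X⟧ := pk 5 1 * pk 5 4 * Ring.inverse (pk 5 2 * pk 5 3)

lemma RR_mul : RR * (pk 5 2 * pk 5 3) = pk 5 1 * pk 5 4 := by
  rw [RR, mul_assoc, Ring.inverse_mul_cancel _
    ((pk_unit (by norm_num) (by norm_num)).mul (pk_unit (by norm_num) (by norm_num))), mul_one]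

lemma RR_cg : Cg 1 RR 1 := by
  have h : Cg 1 (RR * (pk 5 2 * pk 5 3)) (RR * (1 * 1)) :=
    (Cg.refl _).mul ((pk_cg (by norm_num) (by norm_num)).mul (pk_cg (by norm_num) (by norm_num)))
  rw [RR_mul, mul_one, mul_one] at h
  simpa using h.symm.trans
    ((pk_cg (by norm_num) (by norm_num)).mul (pk_cg (by norm_num) (by norm_num)))

theorem modeq : E 2 RR * (1 - X * RR * E 2 RR ^ 2) = RR ^ 2 * (1 + X * RR * E 2 RR ^ 2) := by
  have d13 := th_mul 1 1 7 (by norm_num)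
  have d15 := th_mul 2 1 5 (by norm_num)
  have d17 := th_mul 3 1 3 (by norm_num)
  have d19 := th_mul 4 1 1 (by norm_num)
  have d35 := th_mul 1 3 5 (by norm_num)
  have d37 := th_mul 2 3 3 (by norm_num)
  norm_num at d13 d15 d17 d19 d35 d37
  have ip : (th 1 9 * th 4 6) * (th 3 7 * th 4 6 + X * (th 1 9 * th 2 8)) =
      (th 2 8 * th 3 7) * (th 2 8 * th 5 5) := by
    rw [d13, d15, d17, d35, d37]; ring
  have im : (th 2 8 * th 3 7) * (th 3 7 * th 4 6 - X * (th 1 9 * th 2 8)) =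
      (th 4 6 * th 5 5) * (th 1 9 * th 4 6) := by
    rw [d13, d15, d17, d35, d19]; ring
  rw [th_eq 1 9 rfl, th_eq 2 8 rfl, th_eq 3 7 rfl, th_eq 4 6 rfl, th_eq 5 5 rfl] at ip im
  have h1 := RR_mul
  have h2 := congrArg (E 2) RR_mul
  rw [map_mul, map_mul, map_mul, E_pk, E_pk, E_pk, E_pk] at h2
  rw [pk_split, pk_split, pk_split, pk_split] at h1
  norm_num at h1 h2
  have hu : ∀ r, 0 < r → pk 10 r ≠ 0 := fun r hr => (pk_unit (by norm_num) hr).ne_zero
  obtain ⟨t1, e1⟩ : ∃ t, t = pk 10 1 * pk 10 9 := ⟨_, rfl⟩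
  obtain ⟨t2, e2⟩ : ∃ t, t = pk 10 2 * pk 10 8 := ⟨_, rfl⟩
  obtain ⟨t3, e3⟩ : ∃ t, t = pk 10 3 * pk 10 7 := ⟨_, rfl⟩
  obtain ⟨t4, e4⟩ : ∃ t, t = pk 10 4 * pk 10 6 := ⟨_, rfl⟩
  obtain ⟨t5, e5⟩ : ∃ t, t = pk 10 5 * pk 10 5 := ⟨_, rfl⟩
  have n2 : t2 ≠ 0 := e2 ▸ mul_ne_zero (hu _ (by norm_num)) (hu _ (by norm_num))
  have n3 : t3 ≠ 0 := e3 ▸ mul_ne_zero (hu _ (by norm_num)) (hu _ (by norm_num))
  have n4 : t4 ≠ 0 := e4 ▸ mul_ne_zero (hu _ (by norm_num)) (hu _ (by norm_num))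
  have nF : pk 10 10 ≠ 0 := hu _ (by norm_num)
  have g1 : RR * t2 * t3 = t1 * t4 := by rw [e1, e2, e3, e4]; linear_combination h1
  have g2 : E 2 RR * t4 = t2 := by rw [e2, e4]; linear_combination h2
  rw [← e1, ← e2, ← e3, ← e4, ← e5] at ip im
  have ip' : t1 * t4 * (t3 * t4 + X * t1 * t2) = t2 ^ 2 * t3 * t5 := by
    apply mul_left_cancel₀ (pow_ne_zero 4 nF); linear_combination ip
  have im' : t2 * t3 * (t3 * t4 - X * t1 * t2) = t1 * t4 ^ 2 * t5 := by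
    apply mul_left_cancel₀ (pow_ne_zero 4 nF); linear_combination im
  generalize E 2 RR = R2 at g2 ⊢
  generalize RR = R at g1 ⊢
  have hk : X * R * R2 ^ 2 * (t3 * t4) = X * t1 * t2 := by
    apply mul_left_cancel₀ (mul_ne_zero n2 n4)
    linear_combination X * (R2 * t4) ^ 2 * g1 + X * t1 * t4 * (R2 * t4 + t2) * g2
  generalize X * R * R2 ^ 2 = k at hk ⊢
  apply mul_left_cancel₀ (mul_ne_zero (mul_ne_zero (pow_ne_zero 2 n2) (pow_ne_zero 3 n3))
    (pow_ne_zero 2 n4))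
  calc _ = (R2 * t4) * (t3 * t4 - k * (t3 * t4)) * t2 ^ 2 * t3 ^ 2 := by ring
    _ = t2 ^ 2 * t3 * (t2 * t3 * (t3 * t4 - X * t1 * t2)) := by rw [g2, hk]; ring
    _ = t1 * t4 ^ 2 * (t1 * t4 * (t3 * t4 + X * t1 * t2)) := by rw [im', ip']; ring
    _ = (R * t2 * t3) ^ 2 * (t3 * t4 + k * (t3 * t4)) * t4 := by rw [g1, hk]; ring
    _ = _ := by ring

end Pool.Agent.MP_54ec50_nt
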