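import Pool.Agent.MP_54ec50_nt.ModEq

/-! Ramanujan's formula for `R(q)^5 / R(q^5)` and the functional equation of `θ log x`. -/

namespace Pool.Agent.MP_54ec50_nt

open PowerSeries Finset

lemma E_comm (p q : ℕ) [NeZero p] [NeZero q] (f : ℤ⟦X⟧) : E p (E q f) = E q (E p f) := by
  have h1 := expand_mul p (NeZero.ne p) q (NeZero.ne q) f
  have h2 := expand_mul q (NeZero.ne q) p (NeZero.ne p) f
  simp only [mul_comm q p] at h2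
  exact h1.symm.trans h2

lemma E_cg (p : ℕ) [NeZero p] {f : ℤ⟦X⟧} (h : Cg 1 f 1) : Cg 1 (E p f) 1 := by
  simpa using h.map (E p) (X_dvd_E p)

noncomputable def R5 : ℤ⟦X⟧ := E 5 RR
noncomputable def xx : ℤ⟦X⟧ := X * R5
noncomputable def vv : ℤ⟦X⟧ := E 2 xx

lemma vv_eq : vv = X ^ 2 * E 2 R5 := by rw [vv, xx, map_mul, E_X]

lemma Phi : vv ^ 2 * xx ^ 3 + xx ^ 2 + vv ^ 3 * xx - vv = 0 := by
  have h := congrArg (E 5) modeq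
  simp only [map_mul, map_sub, map_add, map_pow, map_one, E_X] at h
  rw [E_comm 5 2, ← R5] at h
  rw [vv_eq, xx]
  linear_combination (-X ^ 2) * h

lemma R5_cg : Cg 1 R5 1 := E_cg 5 RR_cg
lemma R5_unit : IsUnit R5 := isUnit_of_cg R5_cg
lemma X_dvd_xx : X ∣ xx := Dvd.intro _ rfl
lemma X_dvd_vv : X ∣ vv := by rw [vv_eq]; exact (dvd_pow_self _ two_ne_zero).mul_right _
lemma xx_ne : xx ≠ 0 := mul_ne_zero X_ne_zero R5_unit.ne_zero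

lemma cg_one_add {a : ℤ⟦X⟧} (h : X ∣ a) : Cg 1 (1 + a) 1 := by simpa [Cg] using h

noncomputable def Pt (Y S : ℤ⟦X⟧) : ℤ⟦X⟧ :=
  -S + 10 * X * Y * S + 10 * X ^ 3 * Y * S ^ 2 + X ^ 5 * Y * S ^ 3 + Y ^ 2 -
    10 * X ^ 2 * Y ^ 2 * S + 10 * X ^ 4 * Y ^ 2 * S ^ 2 + X ^ 5 * Y ^ 3 * S ^ 2

lemma Pt_unique {Y Z : ℤ⟦X⟧} (hY : Cg 1 Y 1) (hZ : Cg 1 Z 1) (h1 : Pt Y (E 2 Y) = 0)
    (h2 : Pt Z (E 2 Z) = 0) : Y = Z := by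
  have key : ∀ n, Cg (n + 1) Y Z := by
    intro n
    induction n with
    | zero => exact hY.trans hZ.symm
    | succ n ih =>
      have h3 : (X : ℤ⟦X⟧) ^ (n + 1 + 1) ∣ E 2 Y - E 2 Z := by
        obtain ⟨w, hw⟩ := ih
        rw [← map_sub, hw, map_mul, map_pow, E_X, ← pow_mul]
        exact (pow_dvd_pow _ (by omega)).mul_right _
      generalize E 2 Y = S at h1 h3
      generalize E 2 Z = T at h2 h3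
      have h4 : (Y + Z + X * (10 * S + 10 * X ^ 2 * S ^ 2 + X ^ 4 * S ^ 3 - 10 * X * (Y + Z) * S +
          10 * X ^ 3 * (Y + Z) * S ^ 2 + X ^ 4 * (Y ^ 2 + Y * Z + Z ^ 2) * S ^ 2)) * (Y - Z) =
          (S - T) * (1 - 10 * X * Z - 10 * X ^ 3 * Z * (S + T) -
            X ^ 5 * Z * (S ^ 2 + S * T + T ^ 2) + 10 * X ^ 2 * Z ^ 2 -
            10 * X ^ 4 * Z ^ 2 * (S + T) - X ^ 5 * Z ^ 3 * (S + T)) := by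
        unfold Pt at h1 h2
        linear_combination h1 - h2
      refine X_prime.pow_dvd_of_dvd_mul_left _ ?_ (h4 ▸ h3.mul_right _)
      have a1 := Cg.iff_coeff.mp hY 0 (by omega)
      have a2 := Cg.iff_coeff.mp hZ 0 (by omega)
      simp only [coeff_zero_eq_constantCoeff, map_one] at a1 a2
      rw [X_dvd_iff]
      simp [a1, a2]
  exact eq_of_cg fun M => (key M).mono (by omega)

lemma Pt_RR : Pt (RR ^ 5) (E 2 (RR ^ 5)) = 0 := by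
  have h := modeq
  rw [map_pow]
  generalize E 2 RR = S at h ⊢
  generalize RR = R at h ⊢
  unfold Pt
  linear_combination (-S ^ 4 - R ^ 2 * S ^ 3 - R ^ 4 * S ^ 2 - R ^ 6 * S - R ^ 8 - X * R * S ^ 6
      - 3 * X * R ^ 3 * S ^ 5 + 5 * X * R ^ 5 * S ^ 4 + 3 * X * R ^ 7 * S ^ 3
      + X * R ^ 9 * S ^ 2 - X ^ 2 * R ^ 2 * S ^ 8 - 5 * X ^ 2 * R ^ 4 * S ^ 7
      - 3 * X ^ 2 * R ^ 6 * S ^ 6 + 5 * X ^ 2 * R ^ 8 * S ^ 5 - X ^ 2 * R ^ 10 * S ^ 4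
      - X ^ 3 * R ^ 3 * S ^ 10 + 3 * X ^ 3 * R ^ 5 * S ^ 9 - 5 * X ^ 3 * R ^ 7 * S ^ 8
      - 3 * X ^ 3 * R ^ 9 * S ^ 7 + X ^ 3 * R ^ 11 * S ^ 6 - X ^ 4 * R ^ 4 * S ^ 12
      + X ^ 4 * R ^ 6 * S ^ 11 - X ^ 4 * R ^ 8 * S ^ 10 + X ^ 4 * R ^ 10 * S ^ 9
      - X ^ 4 * R ^ 12 * S ^ 8) * h

def Ph {A : Type*} [CommRing A] (U V a b : A) : A :=
  -V * a ^ 3 * b ^ 2 + 10 * U * V * a ^ 2 * b ^ 2 + 10 * U * V ^ 2 * a ^ 2 * b +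
    U * V ^ 3 * a ^ 2 + U ^ 2 * a * b ^ 3 - 10 * U ^ 2 * V * a * b ^ 2 +
    10 * U ^ 2 * V ^ 2 * a * b + U ^ 3 * V ^ 2 * b

def Nn {A : Type*} [CommRing A] (x : A) : A := 1 - 2 * x + 4 * x ^ 2 - 3 * x ^ 3 + x ^ 4
def Dn {A : Type*} [CommRing A] (x : A) : A := 1 + 3 * x + 4 * x ^ 2 + 2 * x ^ 3 + x ^ 4

lemma Ph_zero {A : Type*} [CommRing A] (u v : A)
    (h : v ^ 2 * u ^ 3 + u ^ 2 + v ^ 3 * u - v = 0) :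
    Ph (u * Nn u) (v * Nn v) (Dn u) (Dn v) = 0 := by
  unfold Ph Nn Dn
  linear_combination (1 + 4 * v + 9 * v ^ 2 + 15 * v ^ 3 + 25 * v ^ 4 + 29 * v ^ 5 + 21 * v ^ 6 + 6 * v ^ 7
      + 5 * v ^ 8 + 4 * v ^ 10 + v ^ 11 + v ^ 12 - u - 14 * u * v + u * v ^ 2 - 45 * u * v ^ 3
      - 40 * u * v ^ 4 + u * v ^ 5 - 71 * u * v ^ 6 + 29 * u * v ^ 7 + 35 * u * v ^ 8
      + 20 * u * v ^ 9 - 44 * u * v ^ 10 + 14 * u * v ^ 11 + 4 * u * v ^ 12 + 4 * u ^ 2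
      - 44 * u ^ 2 * v + 36 * u ^ 2 * v ^ 2 - 225 * u ^ 2 * v ^ 3 - 105 * u ^ 2 * v ^ 4
      - 24 * u ^ 2 * v ^ 5 - 301 * u ^ 2 * v ^ 6 - 261 * u ^ 2 * v ^ 7 + 275 * u ^ 2 * v ^ 8
      - 185 * u ^ 2 * v ^ 9 + 36 * u ^ 2 * v ^ 10 - u ^ 2 * v ^ 11 + 9 * u ^ 2 * v ^ 12
      - 20 * u ^ 3 * v + 185 * u ^ 3 * v ^ 2 - 75 * u ^ 3 * v ^ 3 + 225 * u ^ 3 * v ^ 4
      + 325 * u ^ 3 * v ^ 5 - 455 * u ^ 3 * v ^ 6 + 440 * u ^ 3 * v ^ 7 - 275 * u ^ 3 * v ^ 8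
      + 75 * u ^ 3 * v ^ 9 - 225 * u ^ 3 * v ^ 10 + 45 * u ^ 3 * v ^ 11 + 15 * u ^ 3 * v ^ 12
      + 5 * u ^ 4 + 35 * u ^ 4 * v + 275 * u ^ 4 * v ^ 2 - 275 * u ^ 4 * v ^ 3
      + 825 * u ^ 4 * v ^ 4 + 1020 * u ^ 4 * v ^ 5 - 35 * u ^ 4 * v ^ 6 - 125 * u ^ 4 * v ^ 7
      + 825 * u ^ 4 * v ^ 8 - 225 * u ^ 4 * v ^ 9 - 105 * u ^ 4 * v ^ 10 + 40 * u ^ 4 * v ^ 11
      + 25 * u ^ 4 * v ^ 12 - 6 * u ^ 5 - 29 * u ^ 5 * v + 261 * u ^ 5 * v ^ 2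
      - 440 * u ^ 5 * v ^ 3 + 125 * u ^ 5 * v ^ 4 - 174 * u ^ 5 * v ^ 5 - 196 * u ^ 5 * v ^ 6
      + 174 * u ^ 5 * v ^ 7 + 1020 * u ^ 5 * v ^ 8 - 325 * u ^ 5 * v ^ 9 - 24 * u ^ 5 * v ^ 10
      - u ^ 5 * v ^ 11 + 29 * u ^ 5 * v ^ 12 + 21 * u ^ 6 - 71 * u ^ 6 * v
      - 301 * u ^ 6 * v ^ 2 - 455 * u ^ 6 * v ^ 3 - 35 * u ^ 6 * v ^ 4 - 196 * u ^ 6 * v ^ 5
      - 2369 * u ^ 6 * v ^ 6 + 196 * u ^ 6 * v ^ 7 - 35 * u ^ 6 * v ^ 8 + 455 * u ^ 6 * v ^ 9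
      - 301 * u ^ 6 * v ^ 10 + 71 * u ^ 6 * v ^ 11 + 21 * u ^ 6 * v ^ 12 - 29 * u ^ 7
      - u ^ 7 * v + 24 * u ^ 7 * v ^ 2 - 325 * u ^ 7 * v ^ 3 - 1020 * u ^ 7 * v ^ 4
      + 174 * u ^ 7 * v ^ 5 + 196 * u ^ 7 * v ^ 6 - 174 * u ^ 7 * v ^ 7 - 125 * u ^ 7 * v ^ 8
      - 440 * u ^ 7 * v ^ 9 - 261 * u ^ 7 * v ^ 10 - 29 * u ^ 7 * v ^ 11 + 6 * u ^ 7 * v ^ 12
      + 25 * u ^ 8 - 40 * u ^ 8 * v - 105 * u ^ 8 * v ^ 2 + 225 * u ^ 8 * v ^ 3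
      + 825 * u ^ 8 * v ^ 4 + 125 * u ^ 8 * v ^ 5 - 35 * u ^ 8 * v ^ 6 - 1020 * u ^ 8 * v ^ 7
      + 825 * u ^ 8 * v ^ 8 + 275 * u ^ 8 * v ^ 9 + 275 * u ^ 8 * v ^ 10 - 35 * u ^ 8 * v ^ 11
      + 5 * u ^ 8 * v ^ 12 - 15 * u ^ 9 + 45 * u ^ 9 * v + 225 * u ^ 9 * v ^ 2
      + 75 * u ^ 9 * v ^ 3 + 275 * u ^ 9 * v ^ 4 + 440 * u ^ 9 * v ^ 5 + 455 * u ^ 9 * v ^ 6
      + 325 * u ^ 9 * v ^ 7 - 225 * u ^ 9 * v ^ 8 - 75 * u ^ 9 * v ^ 9 - 185 * u ^ 9 * v ^ 10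
      - 20 * u ^ 9 * v ^ 11 + 9 * u ^ 10 + u ^ 10 * v + 36 * u ^ 10 * v ^ 2
      + 185 * u ^ 10 * v ^ 3 + 275 * u ^ 10 * v ^ 4 + 261 * u ^ 10 * v ^ 5
      - 301 * u ^ 10 * v ^ 6 + 24 * u ^ 10 * v ^ 7 - 105 * u ^ 10 * v ^ 8
      + 225 * u ^ 10 * v ^ 9 + 36 * u ^ 10 * v ^ 10 + 44 * u ^ 10 * v ^ 11
      + 4 * u ^ 10 * v ^ 12 - 4 * u ^ 11 + 14 * u ^ 11 * v + 44 * u ^ 11 * v ^ 2
      + 20 * u ^ 11 * v ^ 3 - 35 * u ^ 11 * v ^ 4 + 29 * u ^ 11 * v ^ 5 + 71 * u ^ 11 * v ^ 6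
      + u ^ 11 * v ^ 7 + 40 * u ^ 11 * v ^ 8 - 45 * u ^ 11 * v ^ 9 - u ^ 11 * v ^ 10
      - 14 * u ^ 11 * v ^ 11 + u ^ 11 * v ^ 12 + u ^ 12 - u ^ 12 * v + 4 * u ^ 12 * v ^ 2
      + 5 * u ^ 12 * v ^ 4 - 6 * u ^ 12 * v ^ 5 + 21 * u ^ 12 * v ^ 6 - 29 * u ^ 12 * v ^ 7
      + 25 * u ^ 12 * v ^ 8 - 15 * u ^ 12 * v ^ 9 + 9 * u ^ 12 * v ^ 10 - 4 * u ^ 12 * v ^ 11
      + u ^ 12 * v ^ 12) * h

lemma Dn_cg : Cg 1 (Dn xx) 1 := by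
  have : Dn xx = 1 + xx * (3 + 4 * xx + 2 * xx ^ 2 + xx ^ 3) := by unfold Dn; ring
  rw [this]; exact cg_one_add (X_dvd_xx.mul_right _)

lemma Nn_cg : Cg 1 (Nn xx) 1 := by
  have : Nn xx = 1 + xx * (-2 + 4 * xx - 3 * xx ^ 2 + xx ^ 3) := by unfold Nn; ring
  rw [this]; exact cg_one_add (X_dvd_xx.mul_right _)

lemma inv_cg {a : ℤ⟦X⟧} (h : Cg 1 a 1) : Cg 1 (Ring.inverse a) 1 := by
  have := ((Cg.refl (Ring.inverse a)).mul h).symm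
  rwa [Ring.inverse_mul_cancel _ (isUnit_of_cg h), mul_one] at this

theorem ramanujan : RR ^ 5 * Dn xx = R5 * Nn xx := by
  have hi := Ring.inverse_mul_cancel _ (isUnit_of_cg Dn_cg)
  have hZ : Cg 1 (R5 * Nn xx * Ring.inverse (Dn xx)) 1 := by
    simpa using (R5_cg.mul Nn_cg).mul (inv_cg Dn_cg)
  have hY : Cg 1 (RR ^ 5) 1 := by
    have := (((RR_cg.mul RR_cg).mul RR_cg).mul RR_cg).mul RR_cg
    simp only [mul_one] at this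
    convert this using 1; ring
  obtain ⟨Z, hZ'⟩ : ∃ Z, Z = R5 * Nn xx * Ring.inverse (Dn xx) := ⟨_, rfl⟩
  have e1 : Z * Dn xx = R5 * Nn xx := by rw [hZ', mul_assoc, hi, mul_one]
  rw [← e1, Pt_unique hY (hZ' ▸ hZ) Pt_RR]
  have hD : E 2 (Dn xx) = Dn vv := by simp [Dn, vv, map_ofNat]
  have hN : E 2 (Nn xx) = Nn vv := by simp [Nn, vv, map_ofNat]
  have e2 := congrArg (E 2) e1
  rw [map_mul, map_mul, hD, hN] at e2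
  have e3 : X * Z * Dn xx = xx * Nn xx := by rw [mul_assoc, e1, xx]; ring
  have e4 : X ^ 2 * E 2 Z * Dn vv = vv * Nn vv := by
    rw [mul_assoc, e2]; nth_rw 2 [vv_eq]; ring
  have h := Ph_zero xx vv Phi
  rw [← e3, ← e4] at h
  have n1 : Dn xx ≠ 0 := (isUnit_of_cg Dn_cg).ne_zero
  have n2 : Dn vv ≠ 0 := hD ▸ (isUnit_of_cg (E_cg 2 Dn_cg)).ne_zero
  apply mul_left_cancel₀ (mul_ne_zero (mul_ne_zero (pow_ne_zero 2 X_ne_zero) (pow_ne_zero 3 n1))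
    (pow_ne_zero 3 n2))
  rw [mul_zero, ← h]
  unfold Pt Ph
  ring

/-- the operator `q d/dq` -/
noncomputable def T (f : ℤ⟦X⟧) : ℤ⟦X⟧ := X * d⁄dX ℤ f

lemma coeff_T (f : ℤ⟦X⟧) (n : ℕ) : coeff n (T f) = n * coeff n f := by
  cases n with
  | zero => simp [T]
  | succ n => rw [T, coeff_succ_X_mul, coeff_derivative]; push_cast; ring

lemma T_add (f g : ℤ⟦X⟧) : T (f + g) = T f + T g := by simp [T, mul_add]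
lemma T_sub (f g : ℤ⟦X⟧) : T (f - g) = T f - T g := by simp [T, mul_sub]
lemma T_mul (f g : ℤ⟦X⟧) : T (f * g) = f * T g + g * T f := by
  simp only [T, Derivation.leibniz, smul_eq_mul]; ring
lemma T_nat (n : ℕ) : T n = 0 := by simp [T]
lemma T_one : T 1 = 0 := by simp [T]
lemma T_zero : T 0 = 0 := by simp [T]
lemma T_X : T X = X := by simp [T]
lemma T_pow (f : ℤ⟦X⟧) (n : ℕ) : T (f ^ (n + 1)) = (n + 1) * f ^ n * T f := by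
  induction n with
  | zero => simp
  | succ n ih => rw [pow_succ, T_mul, ih]; push_cast; ring

lemma coeff_nat_mul (m : ℕ) (f : ℤ⟦X⟧) (n : ℕ) : coeff n ((m : ℤ⟦X⟧) * f) = m * coeff n f := by
  rw [← map_natCast (C : ℤ →+* ℤ⟦X⟧), coeff_C_mul]

lemma two_ne : (2 : ℤ⟦X⟧) ≠ 0 := by
  intro h
  have := congrArg constantCoeff h
  simp [map_ofNat] at this

lemma T_E (p : ℕ) [NeZero p] (f : ℤ⟦X⟧) : T (E p f) = p * E p (T f) := by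
  ext n
  rw [coeff_T, coeff_nat_mul, coeff_E, coeff_E]
  split_ifs with h
  · obtain ⟨m, rfl⟩ := h
    rw [Nat.mul_div_cancel_left _ (Nat.pos_of_ne_zero (NeZero.ne p)), coeff_T]
    simp; ring
  · simp

noncomputable def WW : ℤ⟦X⟧ := 1 + T R5 * Ring.inverse R5

lemma WW_cg : Cg 1 WW 1 := cg_one_add ((Dvd.intro _ rfl).mul_right _)

lemma T_xx : T xx = WW * xx := by
  have := Ring.inverse_mul_cancel _ R5_unit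
  rw [xx, T_mul, T_X, WW]
  linear_combination (-X * T R5) * this

lemma T_vv : T vv = 2 * E 2 WW * vv := by
  rw [vv, T_E, T_xx, map_mul]; push_cast; ring

theorem WW_eq : WW * (1 + xx * vv ^ 2 - (xx * vv ^ 2) ^ 2) =
    E 2 WW * (1 - 4 * (xx * vv ^ 2) - (xx * vv ^ 2) ^ 2) := by
  have h := congrArg T Phi
  rw [T_sub, T_add, T_add, T_mul, T_mul, T_pow vv 1, T_pow xx 2, T_pow xx 1, T_pow vv 2, T_xx,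
    T_vv, T_zero] at h
  push_cast at h
  apply mul_left_cancel₀ (mul_ne_zero two_ne (pow_ne_zero 2 xx_ne))
  linear_combination (1 - xx * vv ^ 2) * h +
    (-2 * E 2 WW + 6 * xx * vv ^ 2 * E 2 WW + xx * vv ^ 2 * WW) * Phi

end Pool.Agent.MP_54ec50_nt
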